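import Pool.Agent.Helper65.LD6.E4
import Pool.Agent.Helper76.LD6.Num
import Pool.Agent.Helper4.LD6.H5
import Pool.Agent.Helper47.LD6.TTB2
import Pool.Agent.Helper18.LD6.FO2
import Pool.Agent.Helper17.LD6.GM
import Pool.Agent.Helper9.LD6.Win
import Pool.Agent.Helper30.LD6.TestTime
import Pool.Agent.Helper14.LD6.TSL
import Pool.Agent.Helper67.LD6.TestFew

/-!
# LD6, block PC: the pair correlations of a stage
-/

set_option autoImplicit false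

namespace Pool.Agent.Helper65.LD6

open Set MeasureTheory
open Pool.Agent.Helper41.LD (av var haar)
open Pool.Agent.Helper41.LD4 (A M W Pot NB NBg)
open Pool.Agent.Helper41.LD6
open Pool.Agent.Helper76.LD6 (num_K num_le num_E num_ZE)
open Pool.Agent.Helper4.LD6 (vq_lo)
open Pool.Agent.Helper47.LD6 (T_blk V_near)
open Pool.Agent.Helper18.LD6 (fast_one fast_two)
open Pool.Agent.Helper17.LD6 (G_meas G_bdd)
open Pool.Agent.Helper9.LD6 (win)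
open Pool.Agent.Helper30.LD6 (test_time)
open Pool.Agent.Helper14.LD6 (test_slow)
open Pool.Agent.Helper67.LD6 (test_few)

variable {F : Pm} {K : ℕ} {a₀ ℓst a ℓ x : ℝ} {q q' : Fin (F.d + 1) → ℕ}

/-- the numbers: `2 K + 1 + (C₂ + 11) E ≤ K ^ 3` -/
theorem num65a (hK : F.Big K) : 2 * K + 2 + (F.C₂ + 11) * F.E K ≤ K ^ 3 := by
  have h1 := num_ZE hK
  have h2 := (num_le F).2.2.2.2.2.2.2.1
  have h3 := num_K hK
  have h4 : (F.C₂ + 11) * F.E K ≤ 2 * (F.Z * F.E K) := by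
    have h5 : (F.C₂ + 11) ≤ 2 * F.Z := by omega
    calc (F.C₂ + 11) * F.E K ≤ 2 * F.Z * F.E K := Nat.mul_le_mul_right _ h5
      _ = _ := by ring
  have h5 : K ^ 3 = K * K ^ 2 := by ring
  have h6 : 10 * K ^ 2 ≤ K ^ 3 := by
    rw [h5]
    exact Nat.mul_le_mul_right _ (by omega)
  have h7 : K ≤ K ^ 2 := by nlinarith
  omega

open Classical in
/-- PC6: `pair6` with `H = 2 ^ (2 K)`, `N' = 2 ^ ((C₂ + 3) E)`, `e₁ = e₂ = 2 ^ (-10 E)`; `fast_two` with `ϑ = Th` for `Th ≤ V j a * ℓ`, else `test_slow` -/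
theorem stage_PC6 (hF : F.Ok) (hK : F.Big K) (S : F.St K a₀ ℓst) (hℓ : 0 < ℓ) (h1 : a₀ ≤ a) (h2 : a + ℓ ≤ a₀ + ℓst)
    (hcount : F.T K a₀ ℓst (ℓ / 2 ^ (K ^ 3)) + F.R * F.E K ≤ 2 ^ (2 * K)) :
    ∃ t : ℕ, ∀ q ∈ Qs F.d K, ∀ q' ∈ Qs F.d K,
      |(∑ b ∈ Finset.range (2 ^ (K ^ 3)), (M (F.G K a₀ ℓst q) (a + b * (ℓ / (2 ^ (K ^ 3) : ℕ))) (ℓ / (2 ^ (K ^ 3) : ℕ)) -
          M (F.G K a₀ ℓst q) a ℓ) * A (F.G K a₀ ℓst q') t (a + b * (ℓ / (2 ^ (K ^ 3) : ℕ))) (ℓ / (2 ^ (K ^ 3) : ℕ))) / (2 ^ (K ^ 3) : ℕ) -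
        (if q = q' then vq q else 0)| ≤ (1 / 2) ^ (4 * F.E K) := by
  obtain ⟨t, ht, ht1, ht2⟩ := test_time hF hK S hℓ h1 h2 hcount
  refine ⟨t, fun q hq q' hq' => ?_⟩
  have hE := num_E F K
  have hKK := num_K hK
  have hBpos : 0 < 2 ^ (K ^ 3) := Nat.pow_pos (by norm_num)
  have hB0 : (0 : ℝ) < ((2 ^ (K ^ 3) : ℕ) : ℝ) := by exact_mod_cast hBpos
  have hBe : ((2 ^ (K ^ 3) : ℕ) : ℝ) = 2 ^ (K ^ 3) := by push_cast; rfl
  have hlB : 0 < ℓ / (2 ^ (K ^ 3) : ℕ) := div_pos hℓ hB0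
  -- the windows
  have hw := win hF hK S hℓ h1 h2 hq
  have hw' : ∀ b : ℕ, b < 2 ^ (K ^ 3) → Wq (F.G K a₀ ℓst q) (2 * vq q) ((1 / 2) ^ (2 * F.E K)) (2 ^ (2 * K))
      (F.T K a₀ ℓst (ℓ / (2 ^ (K ^ 3) : ℕ))) (a + b * (ℓ / (2 ^ (K ^ 3) : ℕ))) (ℓ / (2 ^ (K ^ 3) : ℕ)) := by
    intro b hb
    refine win hF hK S hlB ?_ ?_ hq
    · have : 0 ≤ (b : ℝ) * (ℓ / (2 ^ (K ^ 3) : ℕ)) := by positivity
      linarith
    · have h3 : ((b : ℝ) + 1) * (ℓ / (2 ^ (K ^ 3) : ℕ)) ≤ ((2 ^ (K ^ 3) : ℕ) : ℝ) * (ℓ / (2 ^ (K ^ 3) : ℕ)) := by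
        refine mul_le_mul_of_nonneg_right ?_ hlB.le
        exact_mod_cast hb
      rw [mul_div_cancel₀ _ hB0.ne'] at h3
      linarith
  -- the test time is fast
  have haa : a ≤ a₀ + ℓst := by linarith
  have hVt : (2 : ℝ) ^ (F.C₂ * F.E K) ≤ F.V K a₀ ℓst t a * ℓ := by
    refine ht1.trans (mul_le_mul_of_nonneg_right ?_ hℓ.le)
    exact (V_near hF hK S le_rfl h1 haa (by omega)).1
  have hC : F.C₁ ≤ F.C₂ := by unfold Pm.C₂; omega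
  have hTh : F.Th K ≤ F.V K a₀ ℓst t a * ℓ := by
    refine le_trans ?_ hVt
    unfold Pm.Th
    exact pow_le_pow_right₀ (by norm_num) (Nat.mul_le_mul_right _ hC)
  have hThpos : 0 < F.Th K := by unfold Pm.Th; positivity
  -- the error
  have herr : ((1 / 2 : ℝ)) ^ (11 * F.E K) + 2 ^ (F.C₀ * F.E K) / F.Th K ≤ (1 / 2) ^ (10 * F.E K) := by
    have h3 : (2 : ℝ) ^ (F.C₀ * F.E K) / F.Th K = (1 / 2) ^ (20 * F.E K) := by
      unfold Pm.Th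
      rw [div_pow, one_pow, div_eq_div_iff (by positivity) (by positivity), ← pow_add, one_mul]
      congr 1
      unfold Pm.C₁
      ring
    rw [h3]
    have h4 : ((1 / 2 : ℝ)) ^ (11 * F.E K) ≤ (1 / 2) ^ (10 * F.E K + 1) := pow_le_pow_of_le_one (by norm_num) (by norm_num) (by omega)
    have h5 : ((1 / 2 : ℝ)) ^ (20 * F.E K) ≤ (1 / 2) ^ (10 * F.E K + 1) := pow_le_pow_of_le_one (by norm_num) (by norm_num) (by omega)
    have h6 : ((1 / 2 : ℝ)) ^ (10 * F.E K + 1) = (1 / 2) ^ (10 * F.E K) / 2 := by rw [pow_succ]; ring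
    linarith
  -- the correlations
  have hδ : ∀ j < 2 ^ (2 * K), |av (fun x => F.G K a₀ ℓst q j x * F.G K a₀ ℓst q' t x) a ℓ - (if j = t ∧ q = q' then vq q else 0)| ≤
      (1 / 2) ^ (10 * F.E K) := by
    intro j hj
    by_cases hfast : F.Th K ≤ F.V K a₀ ℓst j a * ℓ
    · have h3 := fast_two hF hK S hℓ h1 h2 hThpos hfast hTh hq hq' hj ht
      unfold av
      have h4 : (∫ x in a..(a + ℓ), F.G K a₀ ℓst q j x * F.G K a₀ ℓst q' t x) / ℓ - (if j = t ∧ q = q' then vq q else 0) =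
          ((∫ x in a..(a + ℓ), F.G K a₀ ℓst q j x * F.G K a₀ ℓst q' t x) - ℓ * (if j = t ∧ q = q' then vq q else 0)) / ℓ := by
        field_simp
      rw [h4, abs_div, abs_of_pos hℓ, div_le_iff₀ hℓ]
      exact h3.trans (mul_le_mul_of_nonneg_right herr hℓ.le)
    · have hjt : j ≠ t := by
        rintro rfl
        exact hfast hTh
      rw [if_neg (fun h => hjt h.1), sub_zero]
      exact test_slow hF hK S hℓ h1 h2 hVt ht (not_le.1 hfast) hj hq hq'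
  have he₂ : |av (F.G K a₀ ℓst q' t) a ℓ| ≤ (1 / 2) ^ (10 * F.E K) := by
    unfold av
    rw [abs_div, abs_of_pos hℓ, div_le_iff₀ hℓ]
    have h3 := fast_one hF hK S hℓ h1 h2 (p := a) (p' := a + ℓ) le_rfl (by linarith) le_rfl hThpos hTh hq'
    refine h3.trans (le_trans (le_of_eq ?_) (mul_le_mul_of_nonneg_right herr hℓ.le))
    ring
  have hfew := test_few hF hK S hℓ h1 h2 ht2 hq'
  have hpair := pair6 hw (n' := F.T K a₀ ℓst (ℓ / (2 ^ (K ^ 3) : ℕ))) (B := 2 ^ (K ^ 3)) hBpos hw' (F := F.G K a₀ ℓst q' t)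
    (G_meas K a₀ ℓst hq' t) (G_bdd K a₀ ℓst hq' t) hfew (fun j => if j = t ∧ q = q' then vq q else 0) hδ he₂
  have hsum : ∑ j ∈ Finset.range (2 ^ (2 * K)), (if j = t ∧ q = q' then vq q else 0) = if q = q' then vq q else 0 := by
    by_cases hqq : q = q'
    · simp only [hqq, and_true, if_true]
      rw [Finset.sum_ite_eq', if_pos (Finset.mem_range.2 ht)]
    · simp [hqq]
  rw [hsum] at hpair
  refine hpair.trans ?_
  -- the numbers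
  have hn : (F.T K a₀ ℓst ℓ : ℝ) ≤ 2 ^ (2 * K) := by
    have h3 := (T_blk hF hK S hℓ (by linarith)).1
    have h4 : F.T K a₀ ℓst ℓ ≤ 2 ^ (2 * K) := by omega
    exact_mod_cast h4
  have hv : vq q ≤ 1 := (vq_lo hq).2
  have hE1 : 1 ≤ F.E K := by omega
  have e1 : ((2 ^ (2 * K) : ℕ) : ℝ) = 2 ^ (2 * K) := by push_cast; rfl
  have hnum := num65a hK
  have h3 : ((2 ^ (2 * K) : ℕ) : ℝ) * (2 * 2 ^ ((F.C₂ + 3) * F.E K) / ((2 ^ (K ^ 3) : ℕ) : ℝ)) ≤ (1 / 2) ^ (4 * F.E K + 2) := by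
    rw [e1, hBe, one_div, inv_pow, mul_div_assoc', div_le_iff₀ (by positivity), inv_mul_eq_div, le_div_iff₀ (by positivity)]
    calc (2 : ℝ) ^ (2 * K) * (2 * 2 ^ ((F.C₂ + 3) * F.E K)) * 2 ^ (4 * F.E K + 2) = 2 ^ (2 * K + 1 + (F.C₂ + 3) * F.E K + (4 * F.E K + 2)) := by
          rw [pow_add, pow_add, pow_add]
          ring
      _ ≤ 2 ^ (K ^ 3) := pow_le_pow_right₀ (by norm_num) (by
          have h4 : (F.C₂ + 11) * F.E K = (F.C₂ + 3) * F.E K + 8 * F.E K := by ring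
          omega)
  have h4 : (2 : ℝ) ^ (2 * K) * (1 / 2) ^ (10 * F.E K) ≤ (1 / 2) ^ (4 * F.E K + 4) := by
    have h5 : ((1 / 2 : ℝ)) ^ (10 * F.E K) = (1 / 2) ^ (2 * K) * (1 / 2) ^ (10 * F.E K - 2 * K) := by
      rw [← pow_add]
      congr 1
      omega
    rw [h5, ← mul_assoc, ← mul_pow]
    rw [show (2 : ℝ) * (1 / 2) = 1 by norm_num, one_pow, one_mul]
    exact pow_le_pow_of_le_one (by norm_num) (by norm_num) (by omega)
  have h6 : ((1 / 2 : ℝ)) ^ (4 * F.E K + 2) = (1 / 2) ^ (4 * F.E K) / 4 := by rw [pow_add]; norm_num; ring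
  have h7 : ((1 / 2 : ℝ)) ^ (4 * F.E K + 4) = (1 / 2) ^ (4 * F.E K) / 16 := by rw [pow_add]; norm_num; ring
  have hx : (1 : ℝ) ≤ 2 ^ (2 * K) := one_le_pow₀ (by norm_num)
  have hy : (0 : ℝ) < (1 / 2) ^ (10 * F.E K) := by positivity
  have h8 : ((F.T K a₀ ℓst ℓ : ℝ) + 2 * vq q) * (1 / 2) ^ (10 * F.E K) ≤ 3 * (2 ^ (2 * K) * (1 / 2) ^ (10 * F.E K)) := by
    have h9 : (F.T K a₀ ℓst ℓ : ℝ) + 2 * vq q ≤ 3 * 2 ^ (2 * K) := by linarith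
    calc _ ≤ 3 * 2 ^ (2 * K) * (1 / 2 : ℝ) ^ (10 * F.E K) := mul_le_mul_of_nonneg_right h9 hy.le
      _ = _ := by ring
  rw [mul_add, e1] at *
  have h10 : (0 : ℝ) < (1 / 2) ^ (4 * F.E K) := by positivity
  linarith

end Pool.Agent.Helper65.LD6
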