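import Pool.Agent.Helper41.LD.Defs

/-!
LD6, block BOX: from the sums of the products of Haar functions to the discrepancy of all boxes.
-/

set_option autoImplicit false

namespace Pool.Agent.Helper65.LD6

open Pool.Agent.Helper41.LD (ind haar)

/-- level `0`: the constant function; level `k + 1`: the Haar functions `haar k i` -/
noncomputable def hh (p : ℕ × ℕ) (t : ℝ) : ℝ := if p.1 = 0 then 1 else haar (p.1 - 1) p.2 t

/-- the indices of the levels up to `K` -/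
def hI (K : ℕ) : Finset (ℕ × ℕ) :=
  insert (0, 0) (((Finset.range K).sigma fun k => Finset.range (2 ^ k)).image fun z => (z.1 + 1, z.2))

/-- the conditional expectation of `[0, v)` at level `k` -/
noncomputable def Gv (v : ℝ) (k : ℕ) (y : ℝ) : ℝ :=
  if ⌊(2 : ℝ) ^ k * y⌋ < ⌊(2 : ℝ) ^ k * v⌋ then 1
  else if ⌊(2 : ℝ) ^ k * y⌋ = ⌊(2 : ℝ) ^ k * v⌋ then Int.fract ((2 : ℝ) ^ k * v) else 0

/-- the coefficient of level `k` -/
noncomputable def gam (v : ℝ) (k : ℕ) : ℝ := min (Int.fract ((2 : ℝ) ^ k * v)) (1 - Int.fract ((2 : ℝ) ^ k * v))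

theorem gam_nonneg (v : ℝ) (k : ℕ) : 0 ≤ gam v k :=
  le_min (Int.fract_nonneg _) (by linarith [Int.fract_lt_one ((2 : ℝ) ^ k * v)])

theorem gam_le (v : ℝ) (k : ℕ) : gam v k ≤ 1 / 2 := by
  unfold gam
  rcases le_total (Int.fract ((2 : ℝ) ^ k * v)) (1 / 2) with h | h
  · exact (min_le_left _ _).trans h
  · exact (min_le_right _ _).trans (by linarith)

theorem floor_two (x : ℝ) : ⌊2 * x⌋ = if Int.fract x < 1 / 2 then 2 * ⌊x⌋ else 2 * ⌊x⌋ + 1 := by
  have h1 := Int.floor_add_fract x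
  split_ifs with h
  · rw [Int.floor_eq_iff]
    push_cast
    constructor <;> nlinarith [Int.fract_nonneg x]
  · rw [Int.floor_eq_iff]
    push_cast
    constructor <;> nlinarith [Int.fract_lt_one x]

theorem fract_two (x : ℝ) : Int.fract (2 * x) = if Int.fract x < 1 / 2 then 2 * Int.fract x else 2 * Int.fract x - 1 := by
  have h1 := Int.floor_add_fract x
  have h2 := Int.floor_add_fract (2 * x)
  have h3 := floor_two x
  split_ifs at h3 ⊢ with h
  · rw [h3] at h2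
    push_cast at h2
    linarith
  · rw [h3] at h2
    push_cast at h2
    linarith

theorem Gv_succ {v : ℝ} (hv : 0 ≤ v) (k : ℕ) (t : ℝ) :
    Gv v (k + 1) (Int.fract t) = Gv v k (Int.fract t) + gam v k * haar k ⌊(2 : ℝ) ^ k * v⌋₊ t := by
  have hm : ((⌊(2 : ℝ) ^ k * v⌋₊ : ℕ) : ℤ) = ⌊(2 : ℝ) ^ k * v⌋ := Int.natCast_floor_eq_floor (by positivity)
  unfold Gv gam haar ind
  rw [pow_succ', mul_assoc, mul_assoc, floor_two ((2 : ℝ) ^ k * Int.fract t), floor_two ((2 : ℝ) ^ k * v),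
    fract_two ((2 : ℝ) ^ k * v)]
  push_cast
  rw [hm]
  generalize ⌊(2 : ℝ) ^ k * v⌋ = m
  generalize ⌊(2 : ℝ) ^ k * Int.fract t⌋ = n
  generalize hφ : Int.fract ((2 : ℝ) ^ k * v) = φ
  generalize Int.fract ((2 : ℝ) ^ k * Int.fract t) = f
  rcases lt_trichotomy n m with h | h | h
  · have e1 : n < m := h
    have e2 : ¬ n = m := h.ne
    by_cases hf : f < 1 / 2 <;> by_cases hp : φ < 1 / 2 <;> simp only [hf, hp, if_true, if_false, e1] <;>
      rw [if_pos (by omega), if_neg (by omega), if_neg (by omega)] <;> ring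
  · subst h
    by_cases hf : f < 1 / 2 <;> by_cases hp : φ < 1 / 2 <;> simp only [hf, hp, if_true, if_false, lt_irrefl] <;>
      simp <;> first | (rw [min_eq_left (by linarith)]; ring) | (rw [min_eq_right (by linarith)]; ring)
  · by_cases hf : f < 1 / 2 <;> by_cases hp : φ < 1 / 2 <;> simp only [hf, hp, if_true, if_false] <;>
      rw [if_neg (by omega), if_neg (by omega), if_neg (by omega), if_neg (by omega), if_neg (by omega), if_neg (by omega)] <;> ring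

theorem Gv_sum {v : ℝ} (hv : 0 ≤ v) (K : ℕ) (t : ℝ) :
    Gv v K (Int.fract t) = Gv v 0 (Int.fract t) + ∑ k ∈ Finset.range K, gam v k * haar k ⌊(2 : ℝ) ^ k * v⌋₊ t := by
  induction K with
  | zero => simp
  | succ K ih => rw [Finset.sum_range_succ, Gv_succ hv, ih]; ring

/-- the coefficient of `haar k i` in `[0, v)` -/
noncomputable def cf (v : ℝ) (k i : ℕ) : ℝ := if i = ⌊(2 : ℝ) ^ k * v⌋₊ then gam v k else 0

/-- a dyadic interval `[0, v)` -/
theorem ind_dyadic {K m : ℕ} (hm : m ≤ 2 ^ K) (t : ℝ) :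
    (if Int.fract t < (m : ℝ) / 2 ^ K then (1 : ℝ) else 0) = (m : ℝ) / 2 ^ K +
      ∑ k ∈ Finset.range K, ∑ i ∈ Finset.range (2 ^ k), cf ((m : ℝ) / 2 ^ K) k i * haar k i t := by
  set v : ℝ := (m : ℝ) / 2 ^ K with hv
  have hpos : (0 : ℝ) < 2 ^ K := by positivity
  have hv0 : 0 ≤ v := by positivity
  have hv1 : v ≤ 1 := by
    rw [hv, div_le_one hpos]
    exact_mod_cast hm
  rcases hv1.eq_or_lt with h1 | h1
  · -- `v = 1`
    rw [h1, if_pos (Int.fract_lt_one t)]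
    rw [Finset.sum_eq_zero, add_zero]
    intro k _
    refine Finset.sum_eq_zero fun i hi => ?_
    have : ¬ i = ⌊(2 : ℝ) ^ k * 1⌋₊ := by
      rw [mul_one]
      have h2 : ⌊(2 : ℝ) ^ k⌋₊ = 2 ^ k := by
        have := Nat.floor_natCast (R := ℝ) (2 ^ k)
        push_cast at this
        exact this
      rw [h2]
      exact (Finset.mem_range.1 hi).ne
    rw [cf, if_neg this, zero_mul]
  · have h3 : Gv v K (Int.fract t) = if Int.fract t < v then 1 else 0 := by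
      unfold Gv
      have h4 : (2 : ℝ) ^ K * v = (m : ℤ) := by
        rw [hv]
        field_simp
        norm_cast
      rw [h4, Int.floor_intCast, Int.fract_intCast]
      have h5 : (⌊(2 : ℝ) ^ K * Int.fract t⌋ < (m : ℤ)) ↔ Int.fract t < v := by
        rw [Int.floor_lt, ← h4]
        exact mul_lt_mul_iff_right₀ hpos
      by_cases h6 : Int.fract t < v
      · rw [if_pos (h5.2 h6), if_pos h6]
      · rw [if_neg (fun h => h6 (h5.1 h)), if_neg h6]
        split_ifs <;> rfl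
    have h7 : Gv v 0 (Int.fract t) = v := by
      unfold Gv
      rw [pow_zero, one_mul, one_mul]
      have e1 : ⌊Int.fract t⌋ = 0 := by
        rw [Int.floor_eq_zero_iff]
        exact ⟨Int.fract_nonneg t, Int.fract_lt_one t⟩
      have e2 : ⌊v⌋ = 0 := by
        rw [Int.floor_eq_zero_iff]
        exact ⟨hv0, h1⟩
      rw [e1, e2, if_neg (lt_irrefl _), if_pos rfl, Int.fract_eq_self.2 ⟨hv0, h1⟩]
    rw [← h3, Gv_sum hv0, h7]
    congr 1
    refine Finset.sum_congr rfl fun k _ => ?_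
    have hi : ⌊(2 : ℝ) ^ k * v⌋₊ < 2 ^ k := by
      rw [Nat.floor_lt (by positivity)]
      push_cast
      nlinarith [show (0 : ℝ) < 2 ^ k by positivity]
    rw [Finset.sum_eq_single ⌊(2 : ℝ) ^ k * v⌋₊]
    · rw [cf, if_pos rfl]
    · intro i _ hne
      rw [cf, if_neg hne, zero_mul]
    · intro h
      exact absurd (Finset.mem_range.2 hi) h

theorem sum_cf_le (v : ℝ) (k : ℕ) : ∑ i ∈ Finset.range (2 ^ k), |cf v k i| ≤ 1 / 2 := by
  by_cases h : ⌊(2 : ℝ) ^ k * v⌋₊ ∈ Finset.range (2 ^ k)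
  · rw [Finset.sum_eq_single_of_mem _ h]
    · rw [cf, if_pos rfl, abs_of_nonneg (gam_nonneg v k)]
      exact gam_le v k
    · intro i _ hne
      rw [cf, if_neg hne, abs_zero]
  · rw [Finset.sum_eq_zero]
    · norm_num
    · intro i hi
      have h2 : ¬ i = ⌊(2 : ℝ) ^ k * v⌋₊ := by
        rintro rfl
        exact h hi
      rw [cf, if_neg h2, abs_zero]

/-- the coefficients of `[u, v)` -/
noncomputable def cI (u v : ℝ) (p : ℕ × ℕ) : ℝ := if p.1 = 0 then v - u else cf v (p.1 - 1) p.2 - cf u (p.1 - 1) p.2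

theorem sum_hI (K : ℕ) (F : ℕ × ℕ → ℝ) :
    ∑ p ∈ hI K, F p = F (0, 0) + ∑ k ∈ Finset.range K, ∑ i ∈ Finset.range (2 ^ k), F (k + 1, i) := by
  unfold hI
  rw [Finset.sum_insert, Finset.sum_image, Finset.sum_sigma]
  · rintro ⟨k, i⟩ _ ⟨k', i'⟩ _ h
    simp only [Prod.mk.injEq] at h
    obtain ⟨h1, h2⟩ := h
    obtain rfl : k = k' := by omega
    subst h2
    rfl
  · intro h
    rw [Finset.mem_image] at h
    obtain ⟨z, _, hz⟩ := h
    have := congrArg Prod.fst hz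
    simp at this

theorem mem_hI_zero {K : ℕ} {p : ℕ × ℕ} (hp : p ∈ hI K) (h : p.1 = 0) : p = (0, 0) := by
  unfold hI at hp
  rw [Finset.mem_insert, Finset.mem_image] at hp
  rcases hp with hp | ⟨z, _, hz⟩
  · exact hp
  · rw [← hz] at h
    simp at h

theorem ind_interval {K m m' : ℕ} (hmm : m ≤ m') (hm : m' ≤ 2 ^ K) (t : ℝ) :
    (if (m : ℝ) / 2 ^ K ≤ Int.fract t ∧ Int.fract t < (m' : ℝ) / 2 ^ K then (1 : ℝ) else 0) =
      ∑ p ∈ hI K, cI ((m : ℝ) / 2 ^ K) ((m' : ℝ) / 2 ^ K) p * hh p t := by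
  have h1 : (if (m : ℝ) / 2 ^ K ≤ Int.fract t ∧ Int.fract t < (m' : ℝ) / 2 ^ K then (1 : ℝ) else 0) =
      (if Int.fract t < (m' : ℝ) / 2 ^ K then (1 : ℝ) else 0) - (if Int.fract t < (m : ℝ) / 2 ^ K then (1 : ℝ) else 0) := by
    have h2 : (m : ℝ) / 2 ^ K ≤ (m' : ℝ) / 2 ^ K := by
      gcongr
    by_cases h3 : Int.fract t < (m : ℝ) / 2 ^ K
    · rw [if_neg (fun h => absurd h3 (not_lt.2 h.1)), if_pos (h3.trans_le h2), if_pos h3, sub_self]
    · by_cases h4 : Int.fract t < (m' : ℝ) / 2 ^ K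
      · rw [if_pos ⟨not_lt.1 h3, h4⟩, if_pos h4, if_neg h3, sub_zero]
      · rw [if_neg (fun h => h4 h.2), if_neg h4, if_neg h3, sub_zero]
  rw [h1, ind_dyadic hm, ind_dyadic (hmm.trans hm), sum_hI]
  simp only [cI, hh, if_true, Nat.add_sub_cancel, Nat.succ_ne_zero, if_false, mul_one]
  rw [show ∀ a b c d : ℝ, a + b - (c + d) = a - c + (b - d) by intros; ring, ← Finset.sum_sub_distrib]
  congr 1
  refine Finset.sum_congr rfl fun k _ => ?_
  rw [← Finset.sum_sub_distrib]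
  refine Finset.sum_congr rfl fun i _ => ?_
  ring

theorem sum_cI_le {K : ℕ} {u v : ℝ} (h0 : 0 ≤ u) (huv : u ≤ v) (h1 : v ≤ 1) : ∑ p ∈ hI K, |cI u v p| ≤ K + 1 := by
  rw [sum_hI]
  simp only [cI, if_true, Nat.add_sub_cancel, Nat.succ_ne_zero, if_false]
  have h2 : |v - u| ≤ 1 := by
    rw [abs_of_nonneg (by linarith)]
    linarith
  have h3 : ∀ k ∈ Finset.range K, ∑ i ∈ Finset.range (2 ^ k), |cf v k i - cf u k i| ≤ 1 := by
    intro k _
    calc ∑ i ∈ Finset.range (2 ^ k), |cf v k i - cf u k i|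
        ≤ ∑ i ∈ Finset.range (2 ^ k), (|cf v k i| + |cf u k i|) := Finset.sum_le_sum fun i _ => abs_sub _ _
      _ = ∑ i ∈ Finset.range (2 ^ k), |cf v k i| + ∑ i ∈ Finset.range (2 ^ k), |cf u k i| := Finset.sum_add_distrib
      _ ≤ 1 / 2 + 1 / 2 := add_le_add (sum_cf_le v k) (sum_cf_le u k)
      _ = 1 := by norm_num
  have h4 := Finset.sum_le_sum h3
  rw [Finset.sum_const, Finset.card_range, nsmul_eq_mul, mul_one] at h4
  linarith

open Classical in
/-- dyadic boxes -/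
theorem dyadic_box (s K N : ℕ) (t : ℕ → Fin s → ℝ) {E : ℝ} (hE : 0 ≤ E)
    (h : ∀ q : Fin s → ℕ × ℕ, (∀ i, q i ∈ hI K) → (∃ i, (q i).1 ≠ 0) → |∑ j ∈ Finset.range N, ∏ i, hh (q i) (t j i)| ≤ E)
    (m m' : Fin s → ℕ) (hmm : ∀ i, m i ≤ m' i) (hm : ∀ i, m' i ≤ 2 ^ K) :
    |(((Finset.range N).filter fun j => ∀ i, (m i : ℝ) / 2 ^ K ≤ Int.fract (t j i) ∧ Int.fract (t j i) < (m' i : ℝ) / 2 ^ K).card : ℝ) -
      N * ∏ i, ((m' i : ℝ) / 2 ^ K - (m i : ℝ) / 2 ^ K)| ≤ (K + 1) ^ s * E := by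
  set c : Fin s → ℕ × ℕ → ℝ := fun i => cI ((m i : ℝ) / 2 ^ K) ((m' i : ℝ) / 2 ^ K) with hc
  have hpos : (0 : ℝ) < 2 ^ K := by positivity
  have h1 : (((Finset.range N).filter fun j => ∀ i, (m i : ℝ) / 2 ^ K ≤ Int.fract (t j i) ∧ Int.fract (t j i) < (m' i : ℝ) / 2 ^ K).card : ℝ) =
      ∑ q ∈ Fintype.piFinset fun _ : Fin s => hI K, (∏ i, c i (q i)) * ∑ j ∈ Finset.range N, ∏ i, hh (q i) (t j i) := by
    rw [Finset.card_filter]
    push_cast
    simp_rw [Finset.mul_sum]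
    rw [Finset.sum_comm]
    refine Finset.sum_congr rfl fun j _ => ?_
    have h2 : (if ∀ i, (m i : ℝ) / 2 ^ K ≤ Int.fract (t j i) ∧ Int.fract (t j i) < (m' i : ℝ) / 2 ^ K then (1 : ℝ) else 0) =
        ∏ i, (if (m i : ℝ) / 2 ^ K ≤ Int.fract (t j i) ∧ Int.fract (t j i) < (m' i : ℝ) / 2 ^ K then (1 : ℝ) else 0) := by
      rw [Finset.prod_ite_zero]
      simp
    rw [h2]
    simp_rw [ind_interval (hmm _) (hm _)]
    rw [Finset.prod_univ_sum]
    refine Finset.sum_congr rfl fun q _ => ?_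
    rw [Finset.prod_mul_distrib]
  have h0mem : (fun _ : Fin s => ((0 : ℕ), (0 : ℕ))) ∈ Fintype.piFinset fun _ : Fin s => hI K := by
    rw [Fintype.mem_piFinset]
    intro i
    exact Finset.mem_insert_self _ _
  rw [h1, ← Finset.add_sum_erase _ _ h0mem]
  have h2 : (∏ i, c i ((0 : ℕ), (0 : ℕ))) * ∑ j ∈ Finset.range N, ∏ i : Fin s, hh ((0 : ℕ), (0 : ℕ)) (t j i) =
      N * ∏ i, ((m' i : ℝ) / 2 ^ K - (m i : ℝ) / 2 ^ K) := by
    simp [hc, cI, hh, mul_comm]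
  rw [h2, add_sub_cancel_left]
  calc |∑ q ∈ (Fintype.piFinset fun _ : Fin s => hI K).erase (fun _ => (0, 0)),
        (∏ i, c i (q i)) * ∑ j ∈ Finset.range N, ∏ i, hh (q i) (t j i)|
      ≤ ∑ q ∈ (Fintype.piFinset fun _ : Fin s => hI K).erase (fun _ => (0, 0)),
        |(∏ i, c i (q i)) * ∑ j ∈ Finset.range N, ∏ i, hh (q i) (t j i)| := Finset.abs_sum_le_sum_abs _ _
    _ ≤ ∑ q ∈ (Fintype.piFinset fun _ : Fin s => hI K).erase (fun _ => (0, 0)), (∏ i, |c i (q i)|) * E := by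
        refine Finset.sum_le_sum fun q hq => ?_
        rw [Finset.mem_erase, Fintype.mem_piFinset] at hq
        rw [abs_mul, Finset.abs_prod]
        refine mul_le_mul_of_nonneg_left (h q hq.2 ?_) (Finset.prod_nonneg fun _ _ => abs_nonneg _)
        by_contra hcon
        push Not at hcon
        exact hq.1 (funext fun i => mem_hI_zero (hq.2 i) (hcon i))
    _ ≤ ∑ q ∈ Fintype.piFinset fun _ : Fin s => hI K, (∏ i, |c i (q i)|) * E := by
        refine Finset.sum_le_sum_of_subset_of_nonneg (Finset.erase_subset _ _) fun q _ _ => ?_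
        exact mul_nonneg (Finset.prod_nonneg fun _ _ => abs_nonneg _) hE
    _ = (∏ i, ∑ p ∈ hI K, |c i p|) * E := by
        rw [← Finset.sum_mul, Finset.prod_univ_sum]
    _ ≤ (K + 1) ^ s * E := by
        refine mul_le_mul_of_nonneg_right ?_ hE
        calc ∏ i, ∑ p ∈ hI K, |c i p| ≤ ∏ _i : Fin s, ((K : ℝ) + 1) := by
              refine Finset.prod_le_prod (fun i _ => Finset.sum_nonneg fun _ _ => abs_nonneg _) fun i _ => ?_
              refine sum_cI_le (by positivity) ?_ ?_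
              · gcongr
                exact_mod_cast hmm i
              · rw [div_le_one hpos]
                exact_mod_cast hm i
          _ = (K + 1) ^ s := by simp

theorem prod_sub_le {ι : Type*} (S : Finset ι) (a b : ι → ℝ) (ha : ∀ i, 0 ≤ a i) (hab : ∀ i, a i ≤ b i) (hb : ∀ i, b i ≤ 1) :
    ∏ i ∈ S, b i - ∏ i ∈ S, a i ≤ ∑ i ∈ S, (b i - a i) := by
  classical
  induction S using Finset.induction_on with
  | empty => simp
  | insert i S hi ih =>
    rw [Finset.prod_insert hi, Finset.prod_insert hi, Finset.sum_insert hi]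
    have h1 : 0 ≤ ∏ i ∈ S, a i := Finset.prod_nonneg fun i _ => ha i
    have h2 : ∏ i ∈ S, a i ≤ ∏ i ∈ S, b i := Finset.prod_le_prod (fun i _ => ha i) fun i _ => hab i
    have h3 : ∏ i ∈ S, b i ≤ 1 := Finset.prod_le_one (fun i _ => (ha i).trans (hab i)) fun i _ => hb i
    have h4 : b i * ∏ i ∈ S, b i - a i * ∏ i ∈ S, a i =
        b i * (∏ i ∈ S, b i - ∏ i ∈ S, a i) + (b i - a i) * ∏ i ∈ S, a i := by ring
    rw [h4]
    have h5 : b i * (∏ i ∈ S, b i - ∏ i ∈ S, a i) ≤ ∏ i ∈ S, b i - ∏ i ∈ S, a i :=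
      mul_le_of_le_one_left (sub_nonneg.2 h2) (hb i)
    have h6 : (b i - a i) * ∏ i ∈ S, a i ≤ b i - a i :=
      mul_le_of_le_one_right (sub_nonneg.2 (hab i)) (h2.trans h3)
    linarith

open Classical in
/-- **BOX.** From the sums of the products of Haar functions of the levels `< K` to the discrepancy of all boxes. -/
theorem box_of_haar (s K N : ℕ) (t : ℕ → Fin s → ℝ) {E : ℝ} (hE : 0 ≤ E)
    (h : ∀ q : Fin s → ℕ × ℕ, (∀ i, q i ∈ hI K) → (∃ i, (q i).1 ≠ 0) → |∑ j ∈ Finset.range N, ∏ i, hh (q i) (t j i)| ≤ E)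
    (α β : Fin s → ℝ) (h0 : ∀ i, 0 ≤ α i) (h1 : ∀ i, α i ≤ β i) (h2 : ∀ i, β i ≤ 1) :
    |(((Finset.range N).filter fun j => ∀ i, α i ≤ Int.fract (t j i) ∧ Int.fract (t j i) < β i).card : ℝ) -
      N * ∏ i, (β i - α i)| ≤ (K + 1) ^ s * E + 2 * s * N / 2 ^ K := by
  have hpos : (0 : ℝ) < 2 ^ K := by positivity
  have hα1 : ∀ i, α i ≤ 1 := fun i => (h1 i).trans (h2 i)
  have hle : ∀ x : ℝ, x ≤ 1 → (2 : ℝ) ^ K * x ≤ ((2 ^ K : ℕ) : ℝ) := by
    intro x hx
    push_cast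
    nlinarith
  have hN : (0 : ℝ) ≤ N := by positivity
  have habs : ∀ x : ℝ, x * 2 ^ K / 2 ^ K = x := fun x => by field_simp
  rw [abs_le]
  constructor
  · -- inner box
    set m : Fin s → ℕ := fun i => ⌈(2 : ℝ) ^ K * α i⌉₊ with hm
    set m' : Fin s → ℕ := fun i => max (m i) ⌊(2 : ℝ) ^ K * β i⌋₊ with hm'
    have e1 : ∀ i, m i ≤ 2 ^ K := fun i => Nat.ceil_le.2 (hle _ (hα1 i))
    have e2 : ∀ i, m' i ≤ 2 ^ K := by
      intro i
      refine max_le (e1 i) ?_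
      exact Nat.floor_le_of_le (hle _ (h2 i))
    have hd := dyadic_box s K N t hE h m m' (fun i => le_max_left _ _) e2
    rw [abs_le] at hd
    have hαm : ∀ i, α i ≤ (m i : ℝ) / 2 ^ K := by
      intro i
      rw [le_div_iff₀ hpos, mul_comm]
      exact Nat.le_ceil _
    have hcard : (((Finset.range N).filter fun j => ∀ i, (m i : ℝ) / 2 ^ K ≤ Int.fract (t j i) ∧ Int.fract (t j i) < (m' i : ℝ) / 2 ^ K).card : ℝ) ≤
        (((Finset.range N).filter fun j => ∀ i, α i ≤ Int.fract (t j i) ∧ Int.fract (t j i) < β i).card : ℝ) := by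
      refine Nat.cast_le.2 (Finset.card_le_card ?_)
      intro j hj
      rw [Finset.mem_filter] at hj ⊢
      refine ⟨hj.1, fun i => ?_⟩
      obtain ⟨h3, h4⟩ := hj.2 i
      refine ⟨(hαm i).trans h3, ?_⟩
      have h5 : (m i : ℝ) < m' i := by
        have := h3.trans_lt h4
        rwa [div_lt_div_iff_of_pos_right hpos] at this
      have h6 : m' i = ⌊(2 : ℝ) ^ K * β i⌋₊ := by
        have h7 : m i < m' i := by exact_mod_cast h5
        rcases max_choice (m i) ⌊(2 : ℝ) ^ K * β i⌋₊ with h8 | h8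
        · exact absurd h8 (by change m' i ≠ m i; omega)
        · exact h8
      rw [h6] at h4
      refine h4.trans_le ?_
      rw [div_le_iff₀ hpos, mul_comm (β i)]
      exact Nat.floor_le (mul_nonneg hpos.le ((h0 i).trans (h1 i)))
    have hside : ∀ i, (β i - α i) - ((m' i : ℝ) / 2 ^ K - (m i : ℝ) / 2 ^ K) ≤ 2 / 2 ^ K := by
      intro i
      have h3 : (2 : ℝ) ^ K * β i < m' i + 1 := by
        have h4 : (⌊(2 : ℝ) ^ K * β i⌋₊ : ℝ) ≤ m' i := Nat.cast_le.2 (le_max_right _ _)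
        have := Nat.lt_floor_add_one ((2 : ℝ) ^ K * β i)
        linarith
      have h4 : (m i : ℝ) < (2 : ℝ) ^ K * α i + 1 := Nat.ceil_lt_add_one (mul_nonneg hpos.le (h0 i))
      rw [← sub_div, sub_le_iff_le_add, ← add_div, le_div_iff₀ hpos]
      linarith
    have hle' : ∀ i, (m' i : ℝ) / 2 ^ K - (m i : ℝ) / 2 ^ K ≤ β i - α i := by
      intro i
      rcases max_choice (m i) ⌊(2 : ℝ) ^ K * β i⌋₊ with h8 | h8
      · have : m' i = m i := h8
        rw [this, sub_self]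
        linarith [h1 i]
      · have h9 : (m' i : ℝ) / 2 ^ K ≤ β i := by
          have : m' i = ⌊(2 : ℝ) ^ K * β i⌋₊ := h8
          rw [this, div_le_iff₀ hpos, mul_comm (β i)]
          exact Nat.floor_le (mul_nonneg hpos.le ((h0 i).trans (h1 i)))
        linarith [hαm i]
    have hvol := prod_sub_le (Finset.univ : Finset (Fin s)) (fun i => (m' i : ℝ) / 2 ^ K - (m i : ℝ) / 2 ^ K) (fun i => β i - α i)
      (fun i => sub_nonneg.2 (by
        gcongr
        exact le_max_left _ _)) hle' (fun i => by linarith [h0 i, h2 i])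
    have hsum : ∑ i : Fin s, ((β i - α i) - ((m' i : ℝ) / 2 ^ K - (m i : ℝ) / 2 ^ K)) ≤ s * (2 / 2 ^ K) := by
      calc ∑ i : Fin s, ((β i - α i) - ((m' i : ℝ) / 2 ^ K - (m i : ℝ) / 2 ^ K)) ≤ ∑ _i : Fin s, (2 : ℝ) / 2 ^ K :=
            Finset.sum_le_sum fun i _ => hside i
        _ = s * (2 / 2 ^ K) := by simp
    have hfin : (N : ℝ) * ∏ i, (β i - α i) ≤ N * ∏ i, ((m' i : ℝ) / 2 ^ K - (m i : ℝ) / 2 ^ K) + 2 * s * N / 2 ^ K := by
      have h3 : (N : ℝ) * ∏ i, (β i - α i) ≤ N * (∏ i, ((m' i : ℝ) / 2 ^ K - (m i : ℝ) / 2 ^ K) + s * (2 / 2 ^ K)) :=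
        mul_le_mul_of_nonneg_left (by linarith) hN
      calc (N : ℝ) * ∏ i, (β i - α i) ≤ _ := h3
        _ = _ := by ring
    linarith [hd.1]
  · -- outer box
    set m : Fin s → ℕ := fun i => ⌊(2 : ℝ) ^ K * α i⌋₊ with hm
    set m' : Fin s → ℕ := fun i => ⌈(2 : ℝ) ^ K * β i⌉₊ with hm'
    have e2 : ∀ i, m' i ≤ 2 ^ K := fun i => Nat.ceil_le.2 (hle _ (h2 i))
    have e1 : ∀ i, m i ≤ m' i := by
      intro i
      have h3 : (m i : ℝ) ≤ (2 : ℝ) ^ K * α i := Nat.floor_le (mul_nonneg hpos.le (h0 i))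
      have h4 : (2 : ℝ) ^ K * β i ≤ m' i := Nat.le_ceil _
      have h5 : (2 : ℝ) ^ K * α i ≤ (2 : ℝ) ^ K * β i := mul_le_mul_of_nonneg_left (h1 i) hpos.le
      exact_mod_cast h3.trans (h5.trans h4)
    have hd := dyadic_box s K N t hE h m m' e1 e2
    rw [abs_le] at hd
    have hmα : ∀ i, (m i : ℝ) / 2 ^ K ≤ α i := by
      intro i
      rw [div_le_iff₀ hpos, mul_comm (α i)]
      exact Nat.floor_le (mul_nonneg hpos.le (h0 i))
    have hβm : ∀ i, β i ≤ (m' i : ℝ) / 2 ^ K := by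
      intro i
      rw [le_div_iff₀ hpos, mul_comm]
      exact Nat.le_ceil _
    have hcard : (((Finset.range N).filter fun j => ∀ i, α i ≤ Int.fract (t j i) ∧ Int.fract (t j i) < β i).card : ℝ) ≤
        (((Finset.range N).filter fun j => ∀ i, (m i : ℝ) / 2 ^ K ≤ Int.fract (t j i) ∧ Int.fract (t j i) < (m' i : ℝ) / 2 ^ K).card : ℝ) := by
      refine Nat.cast_le.2 (Finset.card_le_card ?_)
      intro j hj
      rw [Finset.mem_filter] at hj ⊢
      exact ⟨hj.1, fun i => ⟨(hmα i).trans (hj.2 i).1, (hj.2 i).2.trans_le (hβm i)⟩⟩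
    have hside : ∀ i, ((m' i : ℝ) / 2 ^ K - (m i : ℝ) / 2 ^ K) - (β i - α i) ≤ 2 / 2 ^ K := by
      intro i
      have h3 : (2 : ℝ) ^ K * α i < m i + 1 := Nat.lt_floor_add_one _
      have h4 : (m' i : ℝ) < (2 : ℝ) ^ K * β i + 1 :=
        Nat.ceil_lt_add_one (mul_nonneg hpos.le ((h0 i).trans (h1 i)))
      rw [← sub_div, sub_le_iff_le_add, div_le_iff₀ hpos, add_mul, div_mul_cancel₀ _ hpos.ne']
      linarith
    have hlast : ∀ i, (m' i : ℝ) / 2 ^ K - (m i : ℝ) / 2 ^ K ≤ 1 := by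
      intro i
      have h3 : (m' i : ℝ) / 2 ^ K ≤ 1 := by
        rw [div_le_one hpos]
        exact_mod_cast e2 i
      have h4 : 0 ≤ (m i : ℝ) / 2 ^ K := by positivity
      linarith
    have hvol := prod_sub_le (Finset.univ : Finset (Fin s)) (fun i => β i - α i) (fun i => (m' i : ℝ) / 2 ^ K - (m i : ℝ) / 2 ^ K)
      (fun i => sub_nonneg.2 (h1 i)) (fun i => by linarith [hmα i, hβm i]) hlast
    have hsum : ∑ i : Fin s, (((m' i : ℝ) / 2 ^ K - (m i : ℝ) / 2 ^ K) - (β i - α i)) ≤ s * (2 / 2 ^ K) := by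
      calc ∑ i : Fin s, (((m' i : ℝ) / 2 ^ K - (m i : ℝ) / 2 ^ K) - (β i - α i)) ≤ ∑ _i : Fin s, (2 : ℝ) / 2 ^ K :=
            Finset.sum_le_sum fun i _ => hside i
        _ = s * (2 / 2 ^ K) := by simp
    have hfin : (N : ℝ) * ∏ i, ((m' i : ℝ) / 2 ^ K - (m i : ℝ) / 2 ^ K) ≤ N * ∏ i, (β i - α i) + 2 * s * N / 2 ^ K := by
      have h3 : (N : ℝ) * ∏ i, ((m' i : ℝ) / 2 ^ K - (m i : ℝ) / 2 ^ K) ≤ N * (∏ i, (β i - α i) + s * (2 / 2 ^ K)) :=
        mul_le_mul_of_nonneg_left (by linarith) hN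
      calc (N : ℝ) * ∏ i, ((m' i : ℝ) / 2 ^ K - (m i : ℝ) / 2 ^ K) ≤ _ := h3
        _ = _ := by ring
    linarith [hd.2]

end Pool.Agent.Helper65.LD6
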