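import Pool.Agent.Helper41.LD6.Defs

/-!
# LD6, block E4: the correlation of the increments of the martingale with a test function
-/

set_option autoImplicit false

namespace Pool.Agent.Helper65.LD6

open Set MeasureTheory
open Pool.Agent.Helper41.LD (av var haar)
open Pool.Agent.Helper41.LD4 (A M W Pot NB)
open Pool.Agent.Helper41.LD6 (Wq)

variable {G : ℕ → ℝ → ℝ} {w η : ℝ} {H n : ℕ} {a ℓ : ℝ}

private theorem ii6 {ψ : ℝ → ℝ} (hm : Measurable ψ) (h1 : ∀ x, |ψ x| ≤ 1) (u v : ℝ) : IntervalIntegrable ψ volume u v := by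
  refine (intervalIntegrable_const (c := (1:ℝ)) (μ := volume) (a := u) (b := v)).mono_fun' hm.aestronglyMeasurable ?_
  exact Filter.Eventually.of_forall fun x => h1 x

private theorem av_abs6 {ψ : ℝ → ℝ} (h1 : ∀ x, |ψ x| ≤ 1) (a : ℝ) {ℓ : ℝ} (hℓ : 0 < ℓ) : |av ψ a ℓ| ≤ 1 := by
  unfold av
  rw [abs_div, abs_of_pos hℓ, div_le_one hℓ]
  have h := intervalIntegral.norm_integral_le_of_norm_le_const (a := a) (b := a + ℓ) (C := 1) (f := ψ) (fun x _ => h1 x)
  rw [one_mul, add_sub_cancel_left, abs_of_pos hℓ] at h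
  exact h

private theorem av_children6 {ψ : ℝ → ℝ} (hm : Measurable ψ) (h1 : ∀ x, |ψ x| ≤ 1) (a : ℝ) {ℓ : ℝ} (hℓ : 0 < ℓ) {B : ℕ}
    (hB : 1 ≤ B) : ∑ b ∈ Finset.range B, av ψ (a + b * (ℓ / B)) (ℓ / B) = B * av ψ a ℓ := by
  have hB0 : (0 : ℝ) < B := by exact_mod_cast hB
  unfold av
  rw [← Finset.sum_div]
  have h1 := intervalIntegral.sum_integral_adjacent_intervals (μ := volume) (f := ψ) (a := fun b : ℕ => a + b * (ℓ / B)) (n := B)
    fun b _ => ii6 hm h1 _ _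
  have h2 : ∑ b ∈ Finset.range B, ∫ x in (a + b * (ℓ / B))..(a + b * (ℓ / B) + ℓ / B), ψ x = ∫ x in a..(a + ℓ), ψ x := by
    have h3 : ∀ b : ℕ, a + (b : ℝ) * (ℓ / B) + ℓ / B = a + ((b + 1 : ℕ) : ℝ) * (ℓ / B) := by
      intro b
      push_cast
      ring
    simp_rw [h3]
    rw [h1]
    congr 1
    · simp
    · field_simp
  rw [h2]
  field_simp

private theorem A_le6 (hw : Wq G w η H n a ℓ) {j : ℕ} (hj : n ≤ j) : |A G j a ℓ| ≤ w * η := by
  unfold A av
  rw [abs_div, abs_of_pos hw.pos, div_le_iff₀ hw.pos]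
  exact hw.tail j hj

private theorem A_one6 (hw : Wq G w η H n a ℓ) (j : ℕ) : |A G j a ℓ| ≤ 1 := av_abs6 (hw.bdd j) a hw.pos

private theorem M_eq6 (hw : Wq G w η H n a ℓ) : M G a ℓ = ∑ j ∈ Finset.range H, A G j a ℓ := by
  unfold M
  refine tsum_eq_sum fun j hj => ?_
  have hj' : H ≤ j := by
    rw [Finset.mem_range] at hj
    omega
  unfold A av
  rw [intervalIntegral.integral_congr (g := fun _ => (0 : ℝ)) fun x _ => hw.zero j hj' x]
  simp

private theorem M_le6 (hw : Wq G w η H n a ℓ) : |M G a ℓ| ≤ n + w := by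
  rw [M_eq6 hw]
  refine (Finset.abs_sum_le_sum_abs _ _).trans ?_
  have hη := hw.ηH
  have hη0 := hw.η0
  have hw0 := hw.w0
  have h1 : ∀ j ∈ Finset.range H, |A G j a ℓ| ≤ (if j < n then 1 else 0) + w * η := by
    intro j _
    split_ifs with h
    · linarith [A_one6 hw j, mul_nonneg hw0 hη0]
    · linarith [A_le6 hw (not_lt.1 h)]
  refine (Finset.sum_le_sum h1).trans ?_
  rw [Finset.sum_add_distrib, Finset.sum_const, Finset.card_range, nsmul_eq_mul]
  have h2 : ∑ j ∈ Finset.range H, (if j < n then (1 : ℝ) else 0) ≤ n := by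
    rw [← Finset.sum_filter, Finset.sum_const, nsmul_eq_mul, mul_one]
    have h3 : ((Finset.range H).filter fun j => j < n) ⊆ Finset.range n := by
      intro j hj
      rw [Finset.mem_filter] at hj
      exact Finset.mem_range.2 hj.2
    have h4 := Finset.card_le_card h3
    rw [Finset.card_range] at h4
    exact_mod_cast h4
  have h3 : (H : ℝ) * (w * η) ≤ w := by
    have h4 : (H : ℝ) * η ≤ 1 := by
      have h5 : (0 : ℝ) ≤ H := by positivity
      nlinarith [mul_nonneg hη0 h5, mul_nonneg hη0 (mul_nonneg h5 h5)]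
    calc (H : ℝ) * (w * η) = w * (H * η) := by ring
      _ ≤ w * 1 := mul_le_mul_of_nonneg_left h4 hw0
      _ = w := mul_one w
  linarith

/-- the average over a window on which `F` is constant -/
private theorem av_const6 {F ψ : ℝ → ℝ} {s t v : ℝ} (ht : 0 < t) (hv : ∀ x ∈ Ioo s (s + t), F x = v) :
    av (fun x => ψ x * F x) s t = av ψ s t * v := by
  unfold av
  have h1 : ∫ x in s..(s + t), ψ x * F x = ∫ x in s..(s + t), ψ x * v := by
    refine intervalIntegral.integral_congr_ae ?_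
    have h2 : ∀ᵐ x : ℝ, x ≠ s + t := by
      rw [ae_iff]
      simp
    filter_upwards [h2] with x hx hx2
    rw [uIoc_of_le (by linarith)] at hx2
    rw [hv x ⟨hx2.1, lt_of_le_of_ne hx2.2 hx⟩]
  rw [h1, intervalIntegral.integral_mul_const]
  ring

open Classical in
theorem pair6 (hw : Wq G w η H n a ℓ) {n' B : ℕ} (hB : 1 ≤ B) (hw' : ∀ b < B, Wq G w η H n' (a + b * (ℓ / B)) (ℓ / B)) {F : ℝ → ℝ}
    (hF : Measurable F) (hF1 : ∀ x, |F x| ≤ 1) {N' : ℝ}
    (hN' : (((Finset.range B).filter fun b : ℕ => ¬ ∃ v : ℝ, ∀ x ∈ Ioo (a + b * (ℓ / B)) (a + (b + 1) * (ℓ / B)), F x = v).card : ℝ) ≤ N')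
    (δ : ℕ → ℝ) {e₁ e₂ : ℝ} (hδ : ∀ j < H, |av (fun x => G j x * F x) a ℓ - δ j| ≤ e₁) (he₂ : |av F a ℓ| ≤ e₂) :
    |(∑ b ∈ Finset.range B, (M G (a + b * (ℓ / B)) (ℓ / B) - M G a ℓ) * av F (a + b * (ℓ / B)) (ℓ / B)) / B - ∑ j ∈ Finset.range H, δ j| ≤
      H * (2 * N' / B + e₁) + (n + w) * e₂ := by
  have hB0 : (0 : ℝ) < B := by exact_mod_cast hB
  have hℓB : 0 < ℓ / B := div_pos hw.pos hB0
  obtain ⟨Fb, hFb⟩ : ∃ Fb : ℕ → ℝ, Fb = fun b : ℕ => av F (a + b * (ℓ / B)) (ℓ / B) := ⟨_, rfl⟩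
  obtain ⟨Mb, hMb⟩ : ∃ Mb : ℕ → ℝ, Mb = fun b : ℕ => M G (a + b * (ℓ / B)) (ℓ / B) := ⟨_, rfl⟩
  obtain ⟨Ab, hAb⟩ : ∃ Ab : ℕ → ℕ → ℝ, Ab = fun (j : ℕ) (b : ℕ) => A G j (a + b * (ℓ / B)) (ℓ / B) := ⟨_, rfl⟩
  obtain ⟨τ, hτ⟩ : ∃ τ : ℝ, τ = 0 := ⟨_, rfl⟩
  have hFb1 : ∀ b, |Fb b| ≤ 1 := fun b => by rw [hFb]; exact av_abs6 hF1 _ hℓB
  -- each time
  have hj : ∀ j < H, |(∑ b ∈ Finset.range B, Ab j b * Fb b) / B - δ j| ≤ 2 * N' / B + e₁ := by
    intro j hjm
    have h1 : ∑ b ∈ Finset.range B, av (fun x => G j x * F x) (a + b * (ℓ / B)) (ℓ / B) = B * av (fun x => G j x * F x) a ℓ := by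
      refine av_children6 (ψ := fun x => G j x * F x) ((hw.meas j).mul hF) (fun x => ?_) a hw.pos hB
      rw [abs_mul]
      exact mul_le_one₀ (hw.bdd j x) (abs_nonneg _) (hF1 x)
    have h2 : |∑ b ∈ Finset.range B, (Ab j b * Fb b - av (fun x => G j x * F x) (a + b * (ℓ / B)) (ℓ / B))| ≤ 2 * N' := by
      refine (Finset.abs_sum_le_sum_abs _ _).trans ?_
      have h3 : ∀ b ∈ Finset.range B, |Ab j b * Fb b - av (fun x => G j x * F x) (a + b * (ℓ / B)) (ℓ / B)| ≤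
          if (¬ ∃ v : ℝ, ∀ x ∈ Ioo (a + b * (ℓ / B)) (a + (b + 1) * (ℓ / B)), F x = v) then 2 else 0 := by
        intro b _
        split_ifs with h4
        · obtain ⟨v, hv⟩ := h4
          have e : a + (b + 1) * (ℓ / B) = (a + b * (ℓ / B)) + ℓ / B := by ring
          rw [e] at hv
          have h5 : av (fun x => G j x * F x) (a + b * (ℓ / B)) (ℓ / B) = Ab j b * v := by
            rw [hAb]
            exact av_const6 hℓB hv
          have h6 : Fb b = v := by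
            have h7 := av_const6 (ψ := fun _ => (1:ℝ)) hℓB hv
            simp only [one_mul] at h7
            rw [hFb]
            show av F (a + b * (ℓ / B)) (ℓ / B) = v
            rw [h7]
            unfold av
            rw [intervalIntegral.integral_const, add_sub_cancel_left, smul_eq_mul, mul_one, div_self hℓB.ne', one_mul]
          rw [h5, h6, sub_self, abs_zero]
        · have h5 : |Ab j b * Fb b| ≤ 1 := by
            rw [abs_mul]
            refine mul_le_one₀ ?_ (abs_nonneg _) (hFb1 b)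
            rw [hAb]
            exact av_abs6 (hw.bdd j) _ hℓB
          have h6 : |av (fun x => G j x * F x) (a + b * (ℓ / B)) (ℓ / B)| ≤ 1 := av_abs6 (fun x => by
            rw [abs_mul]
            exact mul_le_one₀ (hw.bdd j x) (abs_nonneg _) (hF1 x)) _ hℓB
          rw [abs_le] at h5 h6 ⊢
          constructor <;> linarith [h5.1, h5.2, h6.1, h6.2]
      refine (Finset.sum_le_sum h3).trans ?_
      rw [← Finset.sum_filter, Finset.sum_const, nsmul_eq_mul, mul_comm]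
      linarith
    rw [Finset.sum_sub_distrib, h1] at h2
    have h4 := hδ j hjm
    have h5 : |(∑ b ∈ Finset.range B, Ab j b * Fb b) / B - av (fun x => G j x * F x) a ℓ| ≤ 2 * N' / B := by
      have e : (∑ b ∈ Finset.range B, Ab j b * Fb b) / B - av (fun x => G j x * F x) a ℓ =
          ((∑ b ∈ Finset.range B, Ab j b * Fb b) - B * av (fun x => G j x * F x) a ℓ) / B := by
        field_simp
      rw [e, abs_div, abs_of_pos hB0]
      exact div_le_div_of_nonneg_right h2 hB0.le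
    rw [abs_le] at h4 h5 ⊢
    constructor <;> linarith [h4.1, h4.2, h5.1, h5.2]
  -- the tails
  have ht : ∀ b < B, |Mb b - ∑ j ∈ Finset.range H, Ab j b| ≤ τ := by
    intro b hb
    rw [hτ, hMb, hAb]
    show |M G (a + b * (ℓ / B)) (ℓ / B) - ∑ j ∈ Finset.range H, A G j (a + b * (ℓ / B)) (ℓ / B)| ≤ 0
    rw [M_eq6 (hw' b hb), sub_self, abs_zero]
  have hτ0 : |(∑ b ∈ Finset.range B, (Mb b - ∑ j ∈ Finset.range H, Ab j b) * Fb b) / B| ≤ τ := by
    rw [abs_div, abs_of_pos hB0, div_le_iff₀ hB0]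
    refine (Finset.abs_sum_le_sum_abs _ _).trans ?_
    have h1 : ∀ b ∈ Finset.range B, |(Mb b - ∑ j ∈ Finset.range H, Ab j b) * Fb b| ≤ τ := by
      intro b hb
      rw [abs_mul]
      have h2 := ht b (Finset.mem_range.1 hb)
      calc _ ≤ |Mb b - ∑ j ∈ Finset.range H, Ab j b| * 1 := mul_le_mul_of_nonneg_left (hFb1 b) (abs_nonneg _)
        _ ≤ τ := by rw [mul_one]; exact h2
    refine (Finset.sum_le_sum h1).trans (le_of_eq ?_)
    rw [Finset.sum_const, Finset.card_range, nsmul_eq_mul]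
    ring
  -- the mean
  have hmean : (∑ b ∈ Finset.range B, M G a ℓ * Fb b) / B = M G a ℓ * av F a ℓ := by
    rw [← Finset.mul_sum, hFb, av_children6 hF hF1 a hw.pos hB]
    field_simp
  have hMe : |M G a ℓ * av F a ℓ| ≤ (n + w) * e₂ := by
    rw [abs_mul]
    exact mul_le_mul (M_le6 hw) he₂ (abs_nonneg _) ((abs_nonneg _).trans (M_le6 hw))
  have hsum : |∑ j ∈ Finset.range H, ((∑ b ∈ Finset.range B, Ab j b * Fb b) / B - δ j)| ≤ H * (2 * N' / B + e₁) := by
    refine (Finset.abs_sum_le_sum_abs _ _).trans ((Finset.sum_le_sum fun j hj' => hj j (Finset.mem_range.1 hj')).trans (le_of_eq ?_))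
    rw [Finset.sum_const, Finset.card_range, nsmul_eq_mul]
  have hdec : (∑ b ∈ Finset.range B, (Mb b - M G a ℓ) * Fb b) / B - ∑ j ∈ Finset.range H, δ j =
      (∑ j ∈ Finset.range H, ((∑ b ∈ Finset.range B, Ab j b * Fb b) / B - δ j)) +
      (∑ b ∈ Finset.range B, (Mb b - ∑ j ∈ Finset.range H, Ab j b) * Fb b) / B - M G a ℓ * av F a ℓ := by
    rw [← hmean]
    have h1 : ∑ j ∈ Finset.range H, (∑ b ∈ Finset.range B, Ab j b * Fb b) / B =
        (∑ b ∈ Finset.range B, (∑ j ∈ Finset.range H, Ab j b) * Fb b) / B := by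
      rw [← Finset.sum_div, Finset.sum_comm]
      congr 1
      exact Finset.sum_congr rfl fun b _ => (Finset.sum_mul _ _ _).symm
    rw [Finset.sum_sub_distrib, h1]
    have h2 : ∑ b ∈ Finset.range B, (Mb b - M G a ℓ) * Fb b =
        (∑ b ∈ Finset.range B, (∑ j ∈ Finset.range H, Ab j b) * Fb b) +
        (∑ b ∈ Finset.range B, (Mb b - ∑ j ∈ Finset.range H, Ab j b) * Fb b) - ∑ b ∈ Finset.range B, M G a ℓ * Fb b := by
      rw [← Finset.sum_add_distrib, ← Finset.sum_sub_distrib]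
      exact Finset.sum_congr rfl fun b _ => by ring
    rw [h2]
    ring
  have hgoal : (∑ b ∈ Finset.range B, (M G (a + b * (ℓ / B)) (ℓ / B) - M G a ℓ) * av F (a + b * (ℓ / B)) (ℓ / B)) / B -
      ∑ j ∈ Finset.range H, δ j = (∑ b ∈ Finset.range B, (Mb b - M G a ℓ) * Fb b) / B - ∑ j ∈ Finset.range H, δ j := by
    rw [hMb, hFb]
  rw [hgoal, hdec]
  rw [abs_le] at hτ0 hMe hsum ⊢
  rw [hτ] at hτ0
  constructor <;> linarith [hτ0.1, hτ0.2, hMe.1, hMe.2, hsum.1, hsum.2]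

end Pool.Agent.Helper65.LD6
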